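import Pool.Agent.H66.IQ.TD

/-!
# Verifiers in the polynomial hierarchy: targets, part E (protocols, tables, the theorem)
-/

set_option autoImplicit false

namespace Pool.Agent.H66.IQ

open Finset Pool.Agent.H6.NB Pool.Agent.H70.OQ Pool.Agent.H70.EH Pool.Agent.H70.EI Pool.Agent.H78.XQ
open Pool.Agent.H66.IP (Local ins sp dm Good Ext Fool)

/-- LCX: an examination is a formula. -/
def T_LCX : Prop := ∀ (X : Type) (k m S : ℕ) (T : Exam k) (O : (X → Bool) → List Bool → Bool),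
  2 ≤ S → 2 ^ (m + 1) ≤ S → Lit O → T.depth ≤ m → T.Small m →
  Cl X S (k + 5) fun y => T.eval (O y)

/-- PTR: a protocol relative to an oracle which consists of constants and variables is a game tree
whose leaves are formulas. -/
def T_PTR : Prop := ∀ (X : Type) [Fintype X] (k m S : ℕ) (G : Prot k)
  (O : (X → Bool) → List Bool → Bool), 2 ≤ S → 2 ^ (m + 1) ≤ S → Lit O → G.Within m →
  ∃ t : Tr X, t.dp ≤ m ∧ t.Cb S (k + 5) ∧ ∀ y, t.ev y = G.val (O y)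

/-- PFL: protocols do not see the blocks of larger scale. -/
def T_PFL : Prop := ∀ (V : ℕ → Local) (k : ℕ), ∃ n₀, ∀ n ≥ n₀, ∀ G : Prot k,
  G.Within (2 ^ (n / 4)) → Fool V n fun O => G.val O

/-- EXP: the value decreases only if the answer to a question changes. -/
def T_EXP : Prop := ∀ (k m : ℕ) (G : Prot k), G.Within m →
  ∃ Ψ : Finset (Machine k × List Bool), Ψ.card ≤ 2 ^ (2 * m) ∧
    (∀ c ∈ Ψ, c.2.length ^ c.1.c + c.1.c ≤ m) ∧
    ∀ O : List Bool → Bool, ∃ μ : Machine k × List Bool → ℝ, (∀ c, 0 ≤ μ c) ∧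
      ∑ c ∈ Ψ, μ c ≤ m ∧ ∀ O' : List Bool → Bool, G.val O - G.val O' ≤
        ∑ c ∈ Ψ, μ c * ic (¬ (c.2 ∈ c.1.lang O ↔ c.2 ∈ c.1.lang O'))

/-- TBK: a formula is rarely sensitive to many rows. -/
def T_TBK : Prop := ∀ k : ℕ, ∃ n₀, ∀ n ≥ n₀, ∃ K : ℕ, 8 * (2 ^ (n / 4) * K) ≤ 2 ^ n ∧
  ∀ f : (Nn n k → Bool) → Bool, Fm (2 ^ (2 ^ (n / 4) + 1)) (2 ^ (n / 4) + 1) k f →
    2 ^ (2 * 2 ^ (n / 4) + 3) * (univ.filter fun H : Hid (Fin n → Bool) (Ys n) k =>
      K < (senT k f H).card).card ≤ Fintype.card (Hid (Fin n → Bool) (Ys n) k)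

/-- PGP: protocols do not notice a special row. -/
def T_PGP : Prop := ∀ k : ℕ, ∃ n₀, ∀ n ≥ n₀, ∀ G : Prot k, G.Within (2 ^ (n / 4)) →
  ∀ O : (Nn n k → Bool) → List Bool → Bool, Lit O →
  ∑ z : Hid (Fin n → Bool) (Ys n) k × (Fin n → Bool),
    (G.val (O (tabT k z.1)) - G.val (O (tabU k z.1 z.2))) ≤
    Fintype.card (Hid (Fin n → Bool) (Ys n) k × (Fin n → Bool)) / 4

/-- PLO: the value depends on finitely many strings, and lies between `0` and `1`. -/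
def T_PLO : Prop := ∀ (k : ℕ) (G : Prot k), (∀ O, 0 ≤ G.val O ∧ G.val O ≤ 1) ∧ ∃ m : ℕ,
  ∀ O O' : List Bool → Bool, (∀ w, w.length ≤ m → O w = O' w) → G.val O = G.val O'

/-- PST: the stage of a protocol. -/
def T_PST : Prop := ∀ (V : ℕ → Local) (k : ℕ) (G : ℕ → Prot k),
  (∃ n₀, ∀ n ≥ n₀, (G n).Within (2 ^ (n / 4))) → ∀ (N M : ℕ) (O : List Bool → Bool),
  (∀ p, (sp V p).length ≤ M → Good V p O) → ∃ (M' : ℕ) (O' : List Bool → Bool),
    Ext V M O M' O' ∧ ∀ O'' : List Bool → Bool, (∀ w, w.length ≤ M' → O'' w = O' w) →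
      ∃ n ≥ N, ¬ (G n).Proves O'' (List.replicate n false ∉ plang k O'')

/-- FI5: the theorem. -/
def T_FI5 : Prop := ∀ (V : ℕ → Local) (G : ℕ → (k : ℕ) × (List Bool → Prot k)),
  (∀ j, ∃ n₀, ∀ x : List Bool, n₀ ≤ x.length → ((G j).2 x).Within (2 ^ (x.length / 4))) →
  ∃ O : List Bool → Bool,
    (∀ i x, ((V i).acc x O → (exact (ins (V i).c i x)).prob O = 1) ∧
      (¬ (V i).acc x O → (exact (ins (V i).c i x)).prob O = 0)) ∧
    ∀ j N, ∃ n ≥ N, ¬ ((G j).2 (List.replicate n false)).Proves O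
      (List.replicate n false ∉ plang (G j).1 O)

end Pool.Agent.H66.IQ
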