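import Pool.Agent.H66.IQ.Defs

/-!
# Verifiers in the polynomial hierarchy: targets, part D (game trees, blocks)

The targets `T_EVS`, `T_MSS`, `T_LIP`, `T_EXL`, `T_RSM`, `T_TRN`, `T_HVY`, `T_LGT`, `T_PTW`, `T_GL2`,
`T_RTR`, `T_SBT`, `T_ADJ`, `T_GWT` are those of `Pool.Agent.H66.IP` for the game trees with general
leaves.
-/

set_option autoImplicit false

namespace Pool.Agent.H66.IQ

open Finset Pool.Agent.H6.NB Pool.Agent.H70.EH Pool.Agent.H78.XQ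
open Pool.Agent.H66.IP (smx gw fp dd c4 tht)
open Pool.Agent.H68.AC (PA Wt fd Ext ind)

/-- EVS: the values with and without soft choices. -/
def T_EVS : Prop := ∀ (V : Type) (β : ℝ) (t : Tr V) (y : V → Bool), 0 < β →
  0 ≤ t.sv β y ∧ t.sv β y ≤ t.ev y ∧ t.ev y ≤ 1 ∧ t.ev y ≤ t.sv β y + t.cc / β

/-- MSS: the masses. -/
def T_MSS : Prop := ∀ (V : Type) [Fintype V] (β : ℝ) (t : Tr V) (y : V → Bool), 0 < β →
  (∀ x, 0 ≤ t.ms β x y ∧ t.ms β x y ≤ 1) ∧ ∑ x, t.ms β x y ≤ t.wd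

/-- LIP: the value decreases at most by the mass of the changed variables. -/
def T_LIP : Prop := ∀ (V : Type) [Fintype V] [DecidableEq V] (β : ℝ) (t : Tr V)
  (y y' : V → Bool), 0 < β →
  t.sv β y - t.sv β y' ≤ ∑ x ∈ univ.filter (fun x => y x ≠ y' x), t.ms β x y

/-- EXL: the same for the value without soft choices. -/
def T_EXL : Prop := ∀ (V : Type) [Fintype V] [DecidableEq V] (t : Tr V) (y : V → Bool),
  ∃ a : V → ℝ, (∀ x, 0 ≤ a x) ∧ ∑ x, a x ≤ t.wd ∧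
    ∀ y', t.ev y - t.ev y' ≤ ∑ x ∈ univ.filter (fun x => y x ≠ y' x), a x

/-- RSM: the sum of the products. -/
def T_RSM : Prop := ∀ (V : Type) [Fintype V] [DecidableEq V] (β : ℝ) (t : Tr V)
  (y : V → Bool), 0 < β → (∀ x z, 0 ≤ t.own β x z y ∧ t.own β x z y ≤ t.rr β x z y) ∧
  ∑ x, ∑ z, t.rr β x z y ≤ (t.dp + 1) * (4 * (t.wd : ℝ) ^ 2)

/-- TRN: transport of the mass of `z` along the direction `x`. -/
def T_TRN : Prop := ∀ (V : Type) [Fintype V] [DecidableEq V] (β : ℝ) (k : ℕ) (t : Tr V)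
  (y : V → Bool) (x z : V), 1 ≤ β → 1 ≤ k → t.cc ≤ k → x ≠ z →
  t.ms β z y ≤ 3 * (t.ms β z (fp x y) + (t.rr β x z y + t.rr β x z (fp x y)) / tht β k)

/-- HVY: the step if there is a large mass at a corner. -/
def T_HVY : Prop := ∀ (V : Type) [Fintype V] [DecidableEq V] (β : ℝ) (k : ℕ) (t : Tr V)
  (y : V → Bool) (x z : V), 1 ≤ β → 1 ≤ k → t.cc ≤ k → x ≠ z →
  (tht β k ≤ t.ms β x y ∨ tht β k ≤ t.ms β z y) →
  |dd x z (t.sv β) y| ≤ 7 / tht β k * c4 x z (t.rr β x z) y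

/-- LGT: the step at a choice if all masses are small. -/
def T_LGT : Prop := ∀ (V : Type) [Fintype V] [DecidableEq V] (β : ℝ) (k : ℕ) (l r : Tr V)
  (K : ℝ) (y : V → Bool) (x z : V), 1 ≤ β → 1 ≤ k → (Tr.ch l r).cc ≤ k → x ≠ z → 0 ≤ K →
  (∀ y', y' = y ∨ y' = fp x y ∨ y' = fp z y ∨ y' = fp x (fp z y) →
    (Tr.ch l r).ms β x y' < tht β k ∧ (Tr.ch l r).ms β z y' < tht β k) →
  |dd x z (l.sv β) y| ≤ K * c4 x z (l.rr β x z) y →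
  |dd x z (r.sv β) y| ≤ K * c4 x z (r.rr β x z) y →
  |dd x z ((Tr.ch l r).sv β) y| ≤
    (Real.exp (1 / k) * K + 120 * β * k) * c4 x z ((Tr.ch l r).rr β x z) y

/-- PTW: the pointwise inequality. -/
def T_PTW : Prop := ∀ (V : Type) [Fintype V] [DecidableEq V] (β : ℝ) (k : ℕ) (t : Tr V)
  (y : V → Bool) (x z : V), 1 ≤ β → 1 ≤ k → t.cc ≤ k → x ≠ z →
  |dd x z (t.sv β) y| ≤ 2000 * β * (k : ℝ) ^ 2 * c4 x z (t.rr β x z) y

/-- GL2: the second level of the Fourier spectrum of a game. -/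
def T_GL2 : Prop := ∀ (V : Type) [Fintype V] [DecidableEq V] (β : ℝ) (k d q : ℕ) (t : Tr V),
  1 ≤ β → 1 ≤ k → t.cc ≤ k → t.dp ≤ d → t.wd ≤ q →
  L12 (t.sv β) ≤ 4000 * β * (k : ℝ) ^ 2 * (d + 1) * (q : ℝ) ^ 2

/-- RTR: a game with some of the variables fixed is a game. -/
def T_RTR : Prop := ∀ (V : Type) [Fintype V] (t : Tr V) (ρ : V → Option Bool),
  ∃ t' : Tr V, t'.cc ≤ t.cc ∧ t'.dp ≤ t.dp ∧ t'.wd ≤ t.wd ∧
    (∀ S d, t.Cb S d → t'.Cb S d) ∧ (∀ y, t'.ev y = rst ρ t.ev y) ∧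
    ∀ β y, t'.sv β y = rst ρ (t.sv β) y

/-- SBT: substitution: the variables of `t` are replaced by constants or variables. -/
def T_SBT : Prop := ∀ (V X : Type) [Fintype V] [Fintype X] (t : Tr V) (s : V → Bool ⊕ X),
  ∃ t' : Tr X, t'.cc = t.cc ∧ t'.dp = t.dp ∧ t'.wd ≤ t.wd ∧
    ∀ y : X → Bool, t'.ev y = t.ev fun v => Sum.elim id y (s v)

/-- DTF: a decision tree is a leaf. -/
def T_DTF : Prop := ∀ (V : Type) (T : Pool.Agent.H68.AC.DT V), ∃ a : Lf V,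
  (∀ y, a.f y = T.eval y) ∧ ∀ y, (a.Q y).card ≤ T.depth

/-- SWD: a random restriction turns the leaves into decision trees. -/
def T_SWD : Prop := ∀ (V : Type) [Fintype V] [DecidableEq V] (S d w : ℕ) (t : Tr V), 1 ≤ w →
  t.Cb S (d + 1) → ∃ Bad : (Fin (d + 1) → PA V) → Prop,
    (∑ R, Wt (1 / (128 * (w : ℝ))) (1 / 2) R * ind (Bad R) ≤
      2 ^ t.dp * ((S : ℝ) + 1) ^ (d + 1) / 2 ^ w) ∧
    ∀ R, ¬ Bad R → ∃ t' : Tr V, t'.cc ≤ t.cc ∧ t'.dp ≤ t.dp ∧ t'.wd ≤ w ∧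
      (∀ y, t'.ev y = rst (fd R (d + 1)) t.ev y) ∧
      ∀ β y, t'.sv β y = rst (fd R (d + 1)) (t.sv β) y

/-- GL3: the second level of the Fourier spectrum of a game whose leaves are formulas. -/
def T_GL3 : Prop := ∀ (V : Type) [Fintype V] [DecidableEq V] (β : ℝ) (k m S d w : ℕ) (t : Tr V),
  1 ≤ β → 1 ≤ k → 1 ≤ w → t.cc ≤ k → t.dp ≤ m → t.Cb S (d + 1) →
  L12 (t.sv β) ≤ (128 * (w : ℝ)) ^ (2 * (d + 1)) *
    (4000 * β * (k : ℝ) ^ 2 * (m + 1) * (w : ℝ) ^ 2 +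
      (Fintype.card V : ℝ) ^ 2 * 2 ^ m * ((S : ℝ) + 1) ^ (d + 1) / 2 ^ w)

/-- OND: a game whose leaves are formulas does not see one copy. -/
def T_OND : Prop := ∀ (q k m S d w : ℕ) (t : Tr (VV q)), 10 ≤ q → 1 ≤ k → 1 ≤ w →
  t.cc ≤ k → t.dp ≤ m → t.Cb S (d + 1) →
  |∑ p, mv true q p * t.ev p - ∑ p, mv false q p * t.ev p| ≤
    (128 * (w : ℝ)) ^ (2 * (d + 1)) *
      (4003 * (k : ℝ) ^ 2 * (m + 1) * (w : ℝ) ^ 2 / 2 ^ (q / 4) +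
        (2 * 2 ^ q) ^ 2 * 2 ^ m * ((S : ℝ) + 1) ^ (d + 1) / 2 ^ w)

/-- ADJ: games on strings of neighbouring weights. -/
def T_ADJ : Prop := ∀ (V : Type) [Fintype V] [DecidableEq V] (W w : ℕ) (t : Tr V), t.wd ≤ w →
  W + 1 ≤ Fintype.card V →
  wm (fun _ => none) (W + 1) t.ev - wm (fun _ => none) W t.ev ≤ w / (W + 1) ∧
  wm (fun _ => none) W t.ev - wm (fun _ => none) (W + 1) t.ev ≤ w / (Fintype.card V - W)

/-- GWT: a game on strings of given weight. -/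
def T_GWT : Prop := ∀ (V : Type) [Fintype V] [DecidableEq V] [Nonempty V] (W w : ℕ) (δ : ℝ)
  (t : Tr V), 0 ≤ δ → δ ≤ 1 / 8 → t.wd ≤ w →
  |(W : ℝ) - Fintype.card V / 2| ≤ δ * Fintype.card V →
  |wm (fun _ => none) W t.ev - mn t.ev| ≤
    4 * w * (δ + 1 / √(Fintype.card V)) + 16 / Fintype.card V

/-- KST: the strings which extend `κ`. -/
def T_KST : Prop := ∀ (V : Type) [Fintype V] [DecidableEq V] (κ : V → Option Bool) (W : ℕ)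
  (t : Tr V), nv κ (some true) ≤ W → ∃ t' : Tr {v // κ v = none}, t'.cc ≤ t.cc ∧
    t'.dp ≤ t.dp ∧ t'.wd ≤ t.wd ∧
    wm κ W t.ev = wm (fun _ => none) (W - nv κ (some true)) t'.ev ∧
    mn (rst κ t.ev) = mn t'.ev

/-- GWA: a game whose leaves are formulas on strings of given weight. -/
def T_GWA : Prop := ∀ (V : Type) [Fintype V] [DecidableEq V] [Nonempty V] (S d w W : ℕ) (δ : ℝ)
  (t : Tr V), 1 ≤ w → 0 < δ → 40 * δ * (128 * (w : ℝ)) ^ (d + 1) ≤ 1 → t.Cb S (d + 1) →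
  |(W : ℝ) - Fintype.card V / 2| ≤ δ * Fintype.card V →
  |wm (fun _ => none) W t.ev - mn t.ev| ≤
    2 ^ t.dp * ((S : ℝ) + 1) ^ (d + 1) / 2 ^ w + 4 * Real.exp (-(Fintype.card V * δ ^ 2 / 4)) +
      4 * w * (5 * δ * (128 * (w : ℝ)) ^ (d + 1) +
        √(2 * (128 * (w : ℝ)) ^ (d + 1) / Fintype.card V)) +
      32 * (128 * (w : ℝ)) ^ (d + 1) / Fintype.card V

/-- BLA: a function does not see a block if it does not see a copy and the correction string. -/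
def T_BLA : Prop := ∀ r l q R n : ℕ, Sz r l q R n → ∀ (b : Bool)
  (F : ((Fin (2 * l) → Bool) → VV q → Bool) × ((Fin n → Bool) → Bool) → ℝ) (e₁ e₂ : ℝ),
  (∀ c, 0 ≤ F c ∧ F c ≤ 1) → 0 ≤ e₁ → 0 ≤ e₂ →
  (∀ P u h, |∑ p, mv true q p * F (Function.update P u p, h) -
    ∑ p, mv false q p * F (Function.update P u p, h)| ≤ e₁) →
  (∀ (P : (Fin (2 * l) → Bool) → VV q → Bool) (W : ℕ),
    |(W : ℝ) - 2 ^ n / 2| ≤ R / 2 ^ l * 2 ^ n →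
    |wm (fun _ => none) W (fun h : (Fin n → Bool) → Bool => F (P, h)) -
      mn fun h : (Fin n → Bool) → Bool => F (P, h)| ≤ e₂) →
  |∑ c, mB q l R n b c * F c - ∑ c, m0 q l n c * F c| ≤ 2 ^ (2 * l) * e₁ + 1 / 2 ^ l + e₂

/-- NUA: estimates for the error terms. -/
def T_NUA : Prop := ∀ r l q R n : ℕ, Sz r l q R n →
  40 * (R / 2 ^ l : ℝ) * (128 * ((4 ^ r : ℕ) : ℝ)) ^ r ≤ 1 ∧
  (2 : ℝ) ^ (2 * l) * ((128 * ((4 ^ r : ℕ) : ℝ)) ^ (2 * r) *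
      (4003 * ((2 ^ r : ℕ) : ℝ) ^ 2 * (((2 ^ r : ℕ) : ℝ) + 1) * ((4 ^ r : ℕ) : ℝ) ^ 2 /
          2 ^ (q / 4) +
        (2 * 2 ^ q) ^ 2 * 2 ^ 2 ^ r * (((2 ^ 2 ^ r : ℕ) : ℝ) + 1) ^ r / 2 ^ 4 ^ r)) +
    1 / 2 ^ l +
    (2 ^ 2 ^ r * (((2 ^ 2 ^ r : ℕ) : ℝ) + 1) ^ r / 2 ^ 4 ^ r +
      4 * Real.exp (-(2 ^ n * (R / 2 ^ l) ^ 2 / 4)) +
      4 * ((4 ^ r : ℕ) : ℝ) * (5 * (R / 2 ^ l) * (128 * ((4 ^ r : ℕ) : ℝ)) ^ r +
        √(2 * (128 * ((4 ^ r : ℕ) : ℝ)) ^ r / 2 ^ n)) +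
      32 * (128 * ((4 ^ r : ℕ) : ℝ)) ^ r / 2 ^ n) ≤ (1 / 8) ^ r

/-- BFA: a game whose leaves are formulas does not see a block. -/
def T_BFA : Prop := ∀ r l q R n : ℕ, Sz r l q R n → ∀ (b : Bool)
  (F : ((Fin (2 * l) → Bool) → VV q → Bool) × ((Fin n → Bool) → Bool) → ℝ),
  (∀ P u h, ∃ t : Tr (VV q), t.dp ≤ 2 ^ r ∧ t.Cb (2 ^ 2 ^ r) r ∧
    ∀ y, F (Function.update P u y, h) = t.ev y) →
  (∀ P, ∃ t : Tr (Fin n → Bool), t.dp ≤ 2 ^ r ∧ t.Cb (2 ^ 2 ^ r) r ∧ ∀ h, F (P, h) = t.ev h) →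
  |∑ c, mB q l R n b c * F c - ∑ c, m0 q l n c * F c| ≤ (1 / 8) ^ r

end Pool.Agent.H66.IQ
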