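import Pool.Agent.H66.IP.SMA
import Pool.Agent.H66.IQ.TD

/-!
# The masses
-/

set_option autoImplicit false

namespace Pool.Agent.H66.IQ

open Finset
open Pool.Agent.H66.IP (smx gw gw_pos gw_add)

theorem mss_mem (β : ℝ) {V : Type} (t : Tr V) (y : V → Bool) (x : V) :
    0 ≤ t.ms β x y ∧ t.ms β x y ≤ 1 := by
  induction t with
  | lf a =>
    unfold Tr.ms
    split_ifs <;> norm_num
  | av l r hl hr =>
    unfold Tr.ms
    constructor <;> linarith [hl.1, hl.2, hr.1, hr.2]
  | ch l r hl hr =>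
    unfold Tr.ms
    have h1 := gw_pos β (l.sv β y) (r.sv β y)
    have h2 := gw_pos β (r.sv β y) (l.sv β y)
    have h3 := gw_add β (l.sv β y) (r.sv β y)
    have h4 := mul_nonneg h1.le hl.1
    have h5 := mul_nonneg h2.le hr.1
    have h6 := mul_le_mul_of_nonneg_left hl.2 h1.le
    have h7 := mul_le_mul_of_nonneg_left hr.2 h2.le
    constructor <;> linarith

theorem mss_sum (β : ℝ) {V : Type} [Fintype V] (t : Tr V) (y : V → Bool) :
    ∑ x, t.ms β x y ≤ t.wd := by
  classical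
  induction t with
  | lf a =>
    unfold Tr.ms Tr.wd
    rw [Finset.sum_boole]
    have h1 : (univ.filter fun x => a.f y = true ∧ x ∈ a.Q y).card ≤ (a.Q y).card := by
      apply Finset.card_le_card
      intro x hx
      exact (Finset.mem_filter.1 hx).2.2
    have h2 : (a.Q y).card ≤ univ.sup fun y => (a.Q y).card :=
      Finset.le_sup (f := fun y => (a.Q y).card) (Finset.mem_univ y)
    have h3 := h1.trans h2
    refine le_trans ?_ (Nat.cast_le.2 (le_trans h3 (le_of_eq ?_)))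
    · rfl
    · congr
  | av l r hl hr =>
    unfold Tr.ms Tr.wd
    rw [← Finset.sum_div, Finset.sum_add_distrib]
    have h1 : (l.wd : ℝ) ≤ ((max l.wd r.wd : ℕ) : ℝ) := by exact_mod_cast le_max_left _ _
    have h2 : (r.wd : ℝ) ≤ ((max l.wd r.wd : ℕ) : ℝ) := by exact_mod_cast le_max_right _ _
    linarith
  | ch l r hl hr =>
    unfold Tr.ms Tr.wd
    rw [Finset.sum_add_distrib, ← Finset.mul_sum, ← Finset.mul_sum]
    have h1 : (l.wd : ℝ) ≤ ((max l.wd r.wd : ℕ) : ℝ) := by exact_mod_cast le_max_left _ _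
    have h2 : (r.wd : ℝ) ≤ ((max l.wd r.wd : ℕ) : ℝ) := by exact_mod_cast le_max_right _ _
    have h3 := gw_pos β (l.sv β y) (r.sv β y)
    have h4 := gw_pos β (r.sv β y) (l.sv β y)
    have h5 := gw_add β (l.sv β y) (r.sv β y)
    have h6 := mul_le_mul_of_nonneg_left (hl.trans h1) h3.le
    have h7 := mul_le_mul_of_nonneg_left (hr.trans h2) h4.le
    have h8 : gw β (l.sv β y) (r.sv β y) * ((max l.wd r.wd : ℕ) : ℝ) +
        gw β (r.sv β y) (l.sv β y) * ((max l.wd r.wd : ℕ) : ℝ) = ((max l.wd r.wd : ℕ) : ℝ) := by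
      rw [← add_mul, h5, one_mul]
    linarith

theorem pf_MSS : T_MSS := fun _ _ β t y _ => ⟨mss_mem β t y, mss_sum β t y⟩

end Pool.Agent.H66.IQ
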