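import Pool.Agent.H1.IQ.DTF
import Pool.Agent.H1.IQ.HVY
import Pool.Agent.H1.IQ.LIP
import Pool.Agent.H12.IQ.PGP
import Pool.Agent.H15.IQ.ADJ
import Pool.Agent.H15.IQ.BFA
import Pool.Agent.H17.IQ.GL2
import Pool.Agent.H23.IQ.BLA
import Pool.Agent.H23.IQ.TBK
import Pool.Agent.H27.IQ.GWT
import Pool.Agent.H27.IQ.PTR
import Pool.Agent.H31.IQ.PST
import Pool.Agent.H35.IQ.PFL
import Pool.Agent.H36.IQ.OND
import Pool.Agent.H36.IQ.SBT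
import Pool.Agent.H39.IQ.RSM
import Pool.Agent.H39.IQ.TRN
import Pool.Agent.H50.IQ.EXP
import Pool.Agent.H50.IQ.FI5
import Pool.Agent.H60.IQ.GL3
import Pool.Agent.H60.IQ.SWD
import Pool.Agent.H66.IP.All
import Pool.Agent.H66.IQ.MSS
import Pool.Agent.H67.IQ.EVS
import Pool.Agent.H88.IQ.GWA
import Pool.Agent.H90.IQ.EXL
import Pool.Agent.H90.IQ.LCX
import Pool.Agent.H91.IQ.KST
import Pool.Agent.H91.IQ.NUA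
import Pool.Agent.H95.IQ.LGT
import Pool.Agent.H95.IQ.RTR
import Pool.Agent.H97.IQ.PLO
import Pool.Agent.H97.IQ.PTW

/-!
# Assembly: verifiers in the polynomial hierarchy
-/

set_option autoImplicit false

namespace Pool.Agent.H66.IQ

theorem pf_EVS : T_EVS := Pool.Agent.H67.IQ.pf_EVS Pool.Agent.H66.IP.pf_SMA

theorem pf_LIP : T_LIP := Pool.Agent.H1.IQ.pf_LIP Pool.Agent.H66.IP.pf_SMA

theorem pf_EXL : T_EXL := Pool.Agent.H90.IQ.pf_EXL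

theorem pf_RSM : T_RSM := Pool.Agent.H39.IQ.pf_RSM Pool.Agent.H66.IP.pf_SMA pf_MSS

theorem pf_TRN : T_TRN := Pool.Agent.H39.IQ.pf_TRN Pool.Agent.H66.IP.pf_SMA pf_MSS pf_LIP pf_RSM

theorem pf_HVY : T_HVY := Pool.Agent.H1.IQ.pf_HVY pf_MSS pf_LIP pf_RSM pf_TRN

theorem pf_LGT : T_LGT := Pool.Agent.H95.IQ.pf_LGT Pool.Agent.H66.IP.pf_SMA pf_EVS pf_MSS pf_LIP
  pf_RSM pf_TRN Pool.Agent.H66.IP.pf_SQA Pool.Agent.H66.IP.pf_SQB Pool.Agent.H66.IP.pf_EXQ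
  Pool.Agent.H66.IP.pf_EXB Pool.Agent.H66.IP.pf_LGR

theorem pf_PTW : T_PTW := Pool.Agent.H97.IQ.pf_PTW pf_RSM pf_HVY pf_LGT

theorem pf_GL2 : T_GL2 := Pool.Agent.H17.IQ.pf_GL2 pf_PTW pf_RSM

theorem pf_RTR : T_RTR := Pool.Agent.H95.IQ.pf_RTR Pool.Agent.H70.EI.pf_CLR_NB

theorem pf_SBT : T_SBT := Pool.Agent.H36.IQ.pf_SBT

theorem pf_DTF : T_DTF := Pool.Agent.H1.IQ.pf_DTF

theorem pf_SWD : T_SWD := Pool.Agent.H60.IQ.pf_SWD Pool.Agent.H78.XQ.pf_SWL pf_DTF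

theorem pf_GL3 : T_GL3 := Pool.Agent.H60.IQ.pf_GL3 pf_EVS pf_GL2 pf_SWD
  Pool.Agent.H70.EI.pf_HTR_NB

theorem pf_OND : T_OND := Pool.Agent.H36.IQ.pf_OND pf_EVS pf_RTR pf_GL3 Pool.Agent.H66.IP.pf_ABS
  Pool.Agent.H70.EI.pf_MUV_EH

theorem pf_ADJ : T_ADJ := Pool.Agent.H15.IQ.pf_ADJ pf_EXL

theorem pf_GWT : T_GWT := Pool.Agent.H27.IQ.pf_GWT pf_ADJ Pool.Agent.H66.IP.pf_VRN pf_EVS

theorem pf_KST : T_KST := Pool.Agent.H91.IQ.pf_KST pf_SBT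

theorem pf_GWA : T_GWA := Pool.Agent.H88.IQ.pf_GWA pf_SWD pf_GWT pf_KST pf_EVS
  Pool.Agent.H78.XQ.pf_HOE Pool.Agent.H78.XQ.pf_EXC

theorem pf_BLA : T_BLA := Pool.Agent.H23.IQ.pf_BLA Pool.Agent.H66.IP.pf_CPU
  Pool.Agent.H66.IP.pf_SYX Pool.Agent.H66.IP.pf_WEX Pool.Agent.H70.EI.pf_MUV_EH

theorem pf_NUA : T_NUA := Pool.Agent.H91.IQ.pf_NUA

theorem pf_BFA : T_BFA := Pool.Agent.H15.IQ.pf_BFA pf_EVS pf_BLA pf_OND pf_GWA pf_NUA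

theorem pf_LCX : T_LCX := Pool.Agent.H90.IQ.pf_LCX Pool.Agent.H70.EI.pf_LCL
  Pool.Agent.H70.EI.pf_CLB_NB

theorem pf_PTR : T_PTR := Pool.Agent.H27.IQ.pf_PTR pf_LCX

theorem pf_PFL : T_PFL := Pool.Agent.H35.IQ.pf_PFL pf_PTR Pool.Agent.H66.IP.pf_IZU
  Pool.Agent.H66.IP.pf_SPF pf_BFA

theorem pf_EXP : T_EXP := Pool.Agent.H50.IQ.pf_EXP

theorem pf_TBK : T_TBK := Pool.Agent.H23.IQ.pf_TBK Pool.Agent.H70.EI.pf_TBL_OQ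

theorem pf_PGP : T_PGP := Pool.Agent.H12.IQ.pf_PGP pf_EXP pf_TBK Pool.Agent.H70.EI.pf_FML

theorem pf_PLO : T_PLO := Pool.Agent.H97.IQ.pf_PLO Pool.Agent.H70.EI.pf_EVC_NB

theorem pf_PST : T_PST := Pool.Agent.H31.IQ.pf_PST Pool.Agent.H66.IP.pf_LOW
  Pool.Agent.H66.IP.pf_STJ pf_PFL pf_PGP pf_PLO Pool.Agent.H66.IP.pf_SPF Pool.Agent.H66.IP.pf_PLT

theorem pf_FI5 : T_FI5 := Pool.Agent.H50.IQ.pf_FI5 Pool.Agent.H66.IP.pf_FUS pf_PST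
  Pool.Agent.H66.IP.pf_SPF Pool.Agent.H66.IP.pf_GLC Pool.Agent.H78.XQ.pf_EXA

end Pool.Agent.H66.IQ
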