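import Pool.Agent.H66.IP.Stmt

/-!
# Interactive proofs with verifiers in the polynomial hierarchy: definitions

The machines `Machine k` with `k` alternating quantifiers, the languages `plang`, the exact quantum
algorithm `exact`, the local languages `Local` and the strings `ins` are those of
`Pool.Agent.H66.IP.Stmt` and the files it imports.
-/

set_option autoImplicit false

namespace Pool.Agent.H66.IQ

open Pool.Agent.H6.NB Pool.Agent.H70.OQ

/-- The final examination of a verifier who asks questions about `Σ_k` machines: `node M x l r` asks
whether the machine `M` accepts the input `x` relative to the oracle, and continues with `r` if it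
does and with `l` if it does not. -/
inductive Exam (k : ℕ) : Type
  | leaf (b : Bool) : Exam k
  | node (M : Machine k) (x : List Bool) (l r : Exam k) : Exam k

namespace Exam

variable {k : ℕ}

open Classical in
/-- The result of the examination. -/
noncomputable def eval (O : List Bool → Bool) : Exam k → Bool
  | leaf b => b
  | node M x l r => if x ∈ M.lang O then r.eval O else l.eval O

/-- The maximal number of questions. -/
def depth : Exam k → ℕ
  | leaf _ => 0
  | node _ _ l r => max l.depth r.depth + 1

/-- All questions have size at most `m`: the strings of the quantifiers, the number and the length of
the queries of the machine `M` on the input `x` are at most `|x| ^ c + c ≤ m`. -/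
def Small (m : ℕ) : Exam k → Prop
  | leaf _ => True
  | node M x l r => x.length ^ M.c + M.c ≤ m ∧ l.Small m ∧ r.Small m

end Exam

/-- An interactive protocol with public coins, for a fixed input. Each move is one bit: `coin`: the
verifier tosses a fair coin and shows the result, `say`: the prover sends one bit. At the end there
is an examination. -/
inductive Prot (k : ℕ) : Type
  | test (T : Exam k) : Prot k
  | coin (l r : Prot k) : Prot k
  | say (l r : Prot k) : Prot k

namespace Prot

variable {k : ℕ}

/-- The largest probability with which a prover (who knows the oracle and has unlimited power) can
make the verifier accept. -/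
noncomputable def val (O : List Bool → Bool) : Prot k → ℝ
  | test T => if T.eval O = true then 1 else 0
  | coin l r => (l.val O + r.val O) / 2
  | say l r => max (l.val O) (r.val O)

/-- The maximal number of moves. -/
def moves : Prot k → ℕ
  | test _ => 0
  | coin l r => max l.moves r.moves + 1
  | say l r => max l.moves r.moves + 1

/-- Each examination has at most `m` questions, of size at most `m`. -/
def Tests (m : ℕ) : Prot k → Prop
  | test T => T.depth ≤ m ∧ T.Small m
  | coin l r => l.Tests m ∧ r.Tests m
  | say l r => l.Tests m ∧ r.Tests m

/-- There are at most `m` moves and at most `m` questions, of size at most `m`. -/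
def Within (m : ℕ) (G : Prot k) : Prop := G.moves ≤ m ∧ G.Tests m

/-- The protocol proves the statement `A` relative to `O`: if `A` is true, some prover makes the
verifier accept with probability at least `2/3`; if `A` is false, every prover makes the verifier
accept with probability at most `1/3`. -/
def Proves (G : Prot k) (O : List Bool → Bool) (A : Prop) : Prop :=
  (A → 2 / 3 ≤ G.val O) ∧ (¬ A → G.val O ≤ 1 / 3)

end Prot

end Pool.Agent.H66.IQ
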