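import Pool.Agent.H66.IP.TC
import Pool.Agent.H66.IQ.Stmt

/-!
# Interactive proofs with verifiers in the polynomial hierarchy: definitions for the proof
-/

set_option autoImplicit false

namespace Pool.Agent.H66.IQ

open Finset Pool.Agent.H6.NB
open Pool.Agent.H66.IP (smx gw)

/-- A leaf: a Boolean function, and for each point the set of the variables which are read. -/
structure Lf (V : Type) where
  f : (V → Bool) → Bool
  Q : (V → Bool) → Finset V
  path : ∀ y y' : V → Bool, (∀ v ∈ Q y, y' v = y v) → f y' = f y ∧ Q y' = Q y

/-- Game trees: leaves, fair coins, choices of the prover. -/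
inductive Tr (V : Type) : Type
  | lf (a : Lf V) : Tr V
  | av (l r : Tr V) : Tr V
  | ch (l r : Tr V) : Tr V

namespace Tr

variable {V : Type}

/-- The value of the game. -/
noncomputable def ev : Tr V → (V → Bool) → ℝ
  | lf a, y => bi (a.f y)
  | av l r, y => (l.ev y + r.ev y) / 2
  | ch l r, y => max (l.ev y) (r.ev y)

/-- The value with soft choices. -/
noncomputable def sv (β : ℝ) : Tr V → (V → Bool) → ℝ
  | lf a, y => bi (a.f y)
  | av l r, y => (l.sv β y + r.sv β y) / 2
  | ch l r, y => smx β (l.sv β y) (r.sv β y)

open Classical in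
/-- The probability that the game ends in a true leaf which reads the variable `x`. -/
noncomputable def ms (β : ℝ) (x : V) : Tr V → (V → Bool) → ℝ
  | lf a, y => if a.f y = true ∧ x ∈ a.Q y then 1 else 0
  | av l r, y => (l.ms β x y + r.ms β x y) / 2
  | ch l r, y => gw β (l.sv β y) (r.sv β y) * l.ms β x y +
      gw β (r.sv β y) (l.sv β y) * r.ms β x y

/-- The number of choices on a path. -/
def cc : Tr V → ℕ
  | lf _ => 0
  | av l r => max l.cc r.cc
  | ch l r => max l.cc r.cc + 1

/-- The number of moves on a path. -/
def dp : Tr V → ℕ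
  | lf _ => 0
  | av l r => max l.dp r.dp + 1
  | ch l r => max l.dp r.dp + 1

open Classical in
/-- The maximal number of variables which a leaf reads. -/
noncomputable def wd [Fintype V] : Tr V → ℕ
  | lf a => univ.sup fun y => (a.Q y).card
  | av l r => max l.wd r.wd
  | ch l r => max l.wd r.wd

/-- All leaves are in the class `Cl V S d`. -/
def Cb (S d : ℕ) : Tr V → Prop
  | lf a => Cl V S d a.f
  | av l r => l.Cb S d ∧ r.Cb S d
  | ch l r => l.Cb S d ∧ r.Cb S d

section

variable [DecidableEq V]

/-- Products of masses of the variables `x` and `z` at the node itself. -/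
noncomputable def own (β : ℝ) (x z : V) (t : Tr V) (y : V → Bool) : ℝ :=
  t.ms β x y * (t.ms β z y + t.ms β z (Function.update y x (!y x))) +
    t.ms β z y * (t.ms β x y + t.ms β x (Function.update y z (!y z)))

/-- The sum of the products over the nodes of a random path. -/
noncomputable def rr (β : ℝ) (x z : V) : Tr V → (V → Bool) → ℝ
  | lf a, y => (lf a).own β x z y
  | av l r, y => (av l r).own β x z y + (l.rr β x z y + r.rr β x z y) / 2
  | ch l r, y => (ch l r).own β x z y + (gw β (l.sv β y) (r.sv β y) * l.rr β x z y +
      gw β (r.sv β y) (l.sv β y) * r.rr β x z y)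

end

end Tr

end Pool.Agent.H66.IQ
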